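import Pool.Agent.LibBGM20.Defs
import Pool.Agent.LibGWa.U9

/-! The closed geodesics of a closed surface of negative curvature as conjugacy classes of the
group: lengths `ell` and traces `tr` of the Poincaré maps as functions on the group, and the data
`geo ell tr` of the abstract theorem: the primitive classes modulo inversion. -/

open MeasureTheory Set Filter Topology
open scoped ContDiff

namespace GH

open BGM

variable {Γ : Type} [Group Γ]

/-- Lengths and traces of the Poincaré maps. -/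
structure GrpData (ell tr : Γ → ℝ) (κ : ℝ) : Prop where
  kpos : 0 < κ
  conj : ∀ g γ : Γ, ell (γ * g * γ⁻¹) = ell g ∧ tr (γ * g * γ⁻¹) = tr g
  inv : ∀ g : Γ, ell g⁻¹ = ell g ∧ tr g⁻¹ = tr g
  pos : ∀ g : Γ, g ≠ 1 → 0 < ell g
  pow : ∀ (g : Γ) (n : ℕ), ell (g ^ n) = n * ell g
  root : ∀ g : Γ, g ≠ 1 → ∃ (p : Γ) (n : ℕ), Prim p ∧ 0 < n ∧ p ^ n = g ∧
    ∀ γ : Γ, g * γ = γ * g ↔ ∃ j : ℤ, γ = p ^ j
  count : ∃ C, ∀ t, 0 ≤ t → {c : ConjClasses Γ | ∃ g, ConjClasses.mk g = c ∧ ell g ≤ t}.Finite ∧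
    (({c : ConjClasses Γ | ∃ g, ConjClasses.mk g = c ∧ ell g ≤ t}.ncard : ℕ) : ℝ) ≤
      Real.exp (C * t)
  lb : ∀ g : Γ, g ≠ 1 → 4 * Real.sinh (κ * ell g / 2) ^ 2 ≤ tr g - 2
  trp : ∀ g : Γ, g ≠ 1 → ∃ χ : ℝ, 0 ≤ χ ∧ ∀ k : ℕ, 1 ≤ k → tr (g ^ k) = 2 * Real.cosh (k * χ)

/-- Primitive elements are equivalent if they are conjugate, up to inversion. -/
def PRel (g h : {g : Γ // Prim g}) : Prop := IsConj g.1 h.1 ∨ IsConj g.1 h.1⁻¹

theorem isConj_inv {g h : Γ} (H : IsConj g h) : IsConj g⁻¹ h⁻¹ := by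
  rw [isConj_iff] at H ⊢
  obtain ⟨c, rfl⟩ := H
  exact ⟨c, by group⟩

theorem PRel.equiv : Equivalence (PRel (Γ := Γ)) where
  refl g := Or.inl (IsConj.refl _)
  symm := by
    rintro g h (H | H)
    · exact Or.inl H.symm
    · right
      have := isConj_inv H.symm
      rwa [inv_inv] at this
  trans := by
    rintro g h k (H | H) (H' | H')
    · exact Or.inl (H.trans H')
    · exact Or.inr (H.trans H')
    · exact Or.inr (H.trans (isConj_inv H'))
    · left
      have := isConj_inv H'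
      rw [inv_inv] at this
      exact H.trans this

/-- The primitive closed geodesics, without orientation. -/
def PG (Γ : Type) [Group Γ] : Type := Quotient (⟨PRel (Γ := Γ), PRel.equiv⟩ : Setoid _)

/-- A representative. -/
noncomputable def rep (p : PG Γ) : Γ := (Quotient.out p).1

theorem rep_prim (p : PG Γ) : Prim (rep p) := (Quotient.out p).2

/-- The length of the shortest root of `g`: the length of the primitive closed geodesic of which the
closed geodesic of `g` is a repetition. -/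
noncomputable def ellp (ell : Γ → ℝ) (g : Γ) : ℝ :=
  sInf {x : ℝ | ∃ (p : Γ) (n : ℕ), 0 < n ∧ p ^ n = g ∧ ell p = x}

/-- The value of a class function. -/
noncomputable def cf (f : Γ → ℝ) (c : ConjClasses Γ) : ℝ := f (Quotient.out c)

/-- The data of the abstract theorem. -/
noncomputable def geo (ell tr : Γ → ℝ) : GWin.Geo where
  P := PG Γ
  len p := ell (rep p)
  tw p k := tr (rep p ^ k) - 2

end GH
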