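import Pool.Agent.LibGH18.Grp

/-! The bridge: sums over conjugacy classes, and the five hypotheses of the abstract theorem. -/

open MeasureTheory Set Filter Topology
open scoped ContDiff

namespace GH

open BGM GWin

variable {Γ : Type} [Group Γ] {ell tr : Γ → ℝ} {κ : ℝ}

/-- The primitive length of a power of a primitive element. -/
theorem ellp_pow (h : GrpData ell tr κ) {p : Γ} (hp : Prim p) {n : ℕ} (hn : 0 < n) :
    ellp ell (p ^ n) = ell p := by
  have hne : p ^ n ≠ 1 := fun h1 => prim_ne hp (one_of_pow h hn h1)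
  refine IsLeast.csInf_eq ⟨⟨p, n, hn, rfl, rfl⟩, ?_⟩
  rintro x ⟨p', n', hn', hpn, rfl⟩
  have h1 : p ^ n * p' = p' * p ^ n := by
    rw [← hpn, ← pow_succ, ← pow_succ']
  obtain ⟨j, hj⟩ := (root_prim h hp hne (zpow_natCast p n) p').1 h1
  have hj0 : j ≠ 0 := by
    rintro rfl
    rw [zpow_zero] at hj
    rw [hj, one_pow] at hpn
    exact hne hpn.symm
  rw [hj, ell_zpow h]
  have h2 : (1 : ℝ) ≤ |(j : ℝ)| := by exact_mod_cast Int.one_le_abs hj0
  have h3 := h.pos p (prim_ne hp)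
  nlinarith

theorem ellp_conj (h : GrpData ell tr κ) {g : Γ} (hg : g ≠ 1) (γ : Γ) :
    ellp ell (γ * g * γ⁻¹) = ellp ell g := by
  obtain ⟨p, n, hp, hn, hpn, -⟩ := h.root g hg
  have e1 : γ * g * γ⁻¹ = (γ * p * γ⁻¹) ^ n := by
    rw [← hpn, conj_pow]
  rw [e1, ellp_pow h (prim_conj hp γ) hn, ← hpn, ellp_pow h hp hn, (h.conj p γ).1]

theorem ellp_inv (h : GrpData ell tr κ) {g : Γ} (hg : g ≠ 1) : ellp ell g⁻¹ = ellp ell g := by
  obtain ⟨p, n, hp, hn, hpn, -⟩ := h.root g hg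
  have hp' : Prim p⁻¹ := by
    intro x m hx
    have h1 := hp x (-m) (by rw [zpow_neg, hx, inv_inv])
    omega
  rw [← hpn, ← inv_pow, ellp_pow h hp' hn, ellp_pow h hp hn, (h.inv p).1]

theorem cf_mk {f : Γ → ℝ} {g : Γ} (hf : ∀ γ : Γ, f (γ * g * γ⁻¹) = f g) :
    cf f (ConjClasses.mk g) = f g := by
  have h1 : IsConj g (Quotient.out (ConjClasses.mk g)) := by
    have h2 := Quotient.out_eq (ConjClasses.mk g)
    exact (ConjClasses.mk_eq_mk_iff_isConj.1 h2).symm
  obtain ⟨γ, hγ⟩ := isConj_iff.1 h1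
  unfold cf
  rw [← hγ, hf]

/-- Classes of bounded length. -/
theorem fin_cls (h : GrpData ell tr κ) (t : ℝ) :
    {c : ConjClasses Γ | ∃ g, ConjClasses.mk g = c ∧ ell g ≤ t}.Finite := by
  obtain ⟨C, hC⟩ := h.count
  refine (hC (max t 0) (le_max_right _ _)).1.subset ?_
  rintro c ⟨g, hg, hgt⟩
  exact ⟨g, hg, hgt.trans (le_max_left _ _)⟩

theorem pow_ne (h : GrpData ell tr κ) (p : PG Γ) {n : ℕ} (hn : 1 ≤ n) : rep p ^ n ≠ 1 :=
  fun h1 => prim_ne (rep_prim p) (one_of_pow h hn h1)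

/-- The dictionary between classes and repetitions of primitive closed geodesics. -/
theorem dict (h : GrpData ell tr κ) (F : ConjClasses Γ → ℝ)
    (hF : ∀ g : Γ, F (ConjClasses.mk g⁻¹) = F (ConjClasses.mk g)) {t : ℝ}
    (hfin : ∀ g : Γ, t < ell g → F (ConjClasses.mk g) = 0) :
    ∑ᶠ c ∈ {c : ConjClasses Γ | c ≠ ConjClasses.mk 1}, F c =
      2 * ∑ᶠ q ∈ {q : PG Γ × ℕ | 1 ≤ q.2}, F (ConjClasses.mk (rep q.1 ^ q.2)) := by
  obtain ⟨A, hA⟩ : ∃ A : Set (PG Γ × ℕ), A = {q | 1 ≤ q.2} := ⟨_, rfl⟩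
  rw [← hA]
  have hAm : ∀ q, q ∈ A ↔ 1 ≤ q.2 := fun q => by rw [hA]; rfl
  -- the finiteness
  have hsup : (Function.support F).Finite := by
    refine (fin_cls h t).subset ?_
    intro c hc
    induction c using Quotient.inductionOn with
    | _ g =>
      refine ⟨g, rfl, ?_⟩
      by_contra hlt
      exact hc (hfin g (not_le.1 hlt))
  have hinj1 : Set.InjOn (fun q : PG Γ × ℕ => ConjClasses.mk (rep q.1 ^ q.2)) A := by
    intro q hq q' hq' he
    have h1 := ConjClasses.mk_eq_mk_iff_isConj.1 he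
    rw [hAm] at hq
    have h2 := main_inj h (p := q.1) (p' := q'.1) (a := (q.2 : ℤ)) (b := (q'.2 : ℤ))
      (by omega) (by rw [zpow_natCast, zpow_natCast]; exact h1)
    exact Prod.ext h2.1 (by exact_mod_cast h2.2)
  have hinj2 : Set.InjOn (fun q : PG Γ × ℕ => ConjClasses.mk (rep q.1 ^ q.2)⁻¹) A := by
    intro q hq q' hq' he
    refine hinj1 hq hq' ?_
    have h1 := ConjClasses.mk_eq_mk_iff_isConj.1 he
    have h2 := isConj_inv h1
    rw [inv_inv, inv_inv] at h2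
    exact ConjClasses.mk_eq_mk_iff_isConj.2 h2
  have hunion : {c : ConjClasses Γ | c ≠ ConjClasses.mk 1} =
      ((fun q : PG Γ × ℕ => ConjClasses.mk (rep q.1 ^ q.2)) '' A) ∪
      ((fun q : PG Γ × ℕ => ConjClasses.mk (rep q.1 ^ q.2)⁻¹) '' A) := by
    ext c
    constructor
    · intro hc
      induction c using Quotient.inductionOn with
      | _ g =>
        have hg : g ≠ 1 := by
          rintro rfl
          exact hc rfl
        obtain ⟨p, n, hn, h1 | h1⟩ := main_surj h hg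
        · exact Or.inl ⟨(p, n), (hAm _).2 hn, ConjClasses.mk_eq_mk_iff_isConj.2 h1⟩
        · exact Or.inr ⟨(p, n), (hAm _).2 hn, ConjClasses.mk_eq_mk_iff_isConj.2 h1⟩
    · rintro (⟨q, hq, rfl⟩ | ⟨q, hq, rfl⟩) h1
      · have h2 := ConjClasses.mk_eq_mk_iff_isConj.1 h1
        rw [isConj_one_left] at h2
        exact pow_ne h q.1 ((hAm q).1 hq) h2
      · have h2 := ConjClasses.mk_eq_mk_iff_isConj.1 h1
        rw [isConj_one_left, inv_eq_one] at h2
        exact pow_ne h q.1 ((hAm q).1 hq) h2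
  have hdisj : Disjoint ((fun q : PG Γ × ℕ => ConjClasses.mk (rep q.1 ^ q.2)) '' A)
      ((fun q : PG Γ × ℕ => ConjClasses.mk (rep q.1 ^ q.2)⁻¹) '' A) := by
    rw [Set.disjoint_left]
    rintro c ⟨q, hq, rfl⟩ ⟨q', hq', he⟩
    have h1 := ConjClasses.mk_eq_mk_iff_isConj.1 he
    rw [hAm] at hq hq'
    have h2 := main_inj h (p := q'.1) (p' := q.1) (a := -(q'.2 : ℤ)) (b := (q.2 : ℤ))
      (by omega) (by rw [zpow_neg, zpow_natCast, zpow_natCast]; exact h1)
    have h3 := h2.2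
    omega
  rw [hunion, finsum_mem_union' hdisj (hsup.subset Set.inter_subset_right)
    (hsup.subset Set.inter_subset_right), finsum_mem_image hinj1, finsum_mem_image hinj2, two_mul]
  congr 1
  exact finsum_mem_congr rfl fun q _ => hF _

theorem ok_geo (h : GrpData ell tr κ) : Ok (geo ell tr) κ := by
  have hinj : Function.Injective (fun p : PG Γ => ConjClasses.mk (rep p)) := by
    intro p p' he
    exact rep_inj (Or.inl (ConjClasses.mk_eq_mk_iff_isConj.1 he))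
  have hmap : ∀ t : ℝ, ∀ p ∈ {p : PG Γ | (geo ell tr).len p ≤ t},
      ConjClasses.mk (rep p) ∈ {c : ConjClasses Γ | ∃ g, ConjClasses.mk g = c ∧ ell g ≤ t} :=
    fun t p hp => ⟨rep p, rfl, hp⟩
  refine ⟨h.kpos, fun p => h.pos _ (prim_ne (rep_prim p)), fun t => ?_, ?_, fun p => ?_, ?_⟩
  · exact Set.Finite.of_finite_image ((fin_cls h t).subset (by
      rintro c ⟨p, hp, rfl⟩
      exact hmap t p hp)) hinj.injOn
  · obtain ⟨C, hC⟩ := h.count
    refine ⟨C, fun t ht => le_trans ?_ (hC t ht).2⟩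
    exact_mod_cast Set.ncard_le_ncard_of_injOn (fun p : PG Γ => ConjClasses.mk (rep p))
      (hmap t) hinj.injOn (hC t ht).1
  · show 4 * Real.sinh (κ * ell (rep p) / 2) ^ 2 ≤ tr (rep p ^ 1) - 2
    rw [pow_one]
    exact h.lb _ (prim_ne (rep_prim p))
  · intro p k hk
    show (tr (rep p ^ 1) - 2) * Real.exp ((k - 1) * (κ * ell (rep p))) ≤ tr (rep p ^ k) - 2
    have hne := prim_ne (rep_prim p)
    obtain ⟨χ, hχ0, hχ⟩ := h.trp _ hne
    have h1 := hχ 1 le_rfl
    have h2 := h.lb _ hne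
    have hl := h.pos _ hne
    have hk' := h.kpos
    have hc : ∀ x : ℝ, 2 * Real.cosh x - 2 = 4 * Real.sinh (x / 2) ^ 2 := by
      intro x
      have h3 := Real.cosh_two_mul (x / 2)
      have h4 := Real.cosh_sq (x / 2)
      rw [show 2 * (x / 2) = x by ring] at h3
      rw [h3, h4]
      ring
    rw [pow_one] at h1
    rw [h1, Nat.cast_one, one_mul, hc] at h2
    have h5 : κ * ell (rep p) ≤ χ := by
      by_contra hlt
      push Not at hlt
      have h6 : Real.sinh (χ / 2) < Real.sinh (κ * ell (rep p) / 2) :=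
        Real.sinh_lt_sinh.2 (by linarith)
      have h7 : 0 ≤ Real.sinh (χ / 2) := Real.sinh_nonneg_iff.2 (by linarith)
      nlinarith
    rw [hχ k hk, pow_one, h1, Nat.cast_one, one_mul, hc, hc]
    -- sinh (k x) ≥ e^{(k-1) x} sinh x
    have h8 : ∀ (m : ℕ) (x : ℝ), 0 ≤ x → Real.exp (m * x) * Real.sinh x ≤
        Real.sinh ((m + 1) * x) := by
      intro m x hx
      induction m with
      | zero => simp
      | succ m ih =>
        have e1 : ((m + 1 : ℕ) + 1 : ℝ) * x = (m + 1) * x + x := by push_cast; ring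
        have e2 : ((m + 1 : ℕ) : ℝ) * x = m * x + x := by push_cast; ring
        rw [e1, e2, Real.exp_add, Real.sinh_add]
        have h9 : 0 ≤ Real.sinh x := Real.sinh_nonneg_iff.2 hx
        have h10 : Real.sinh ((m + 1) * x) ≤ Real.cosh ((m + 1) * x) :=
          (Real.sinh_lt_cosh _).le
        have h11 : Real.exp x = Real.cosh x + Real.sinh x := (Real.cosh_add_sinh x).symm
        have h12 : 0 < Real.exp x := Real.exp_pos x
        calc Real.exp (m * x) * Real.exp x * Real.sinh x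
            = (Real.exp (m * x) * Real.sinh x) * Real.exp x := by ring
          _ ≤ Real.sinh ((m + 1) * x) * Real.exp x := mul_le_mul_of_nonneg_right ih h12.le
          _ = Real.sinh ((m + 1) * x) * Real.cosh x + Real.sinh ((m + 1) * x) * Real.sinh x := by
              rw [h11]; ring
          _ ≤ Real.sinh ((m + 1) * x) * Real.cosh x + Real.cosh ((m + 1) * x) * Real.sinh x := by
              have := mul_le_mul_of_nonneg_right h10 h9
              linarith
    obtain ⟨m, rfl⟩ : ∃ m, k = m + 1 := ⟨k - 1, by omega⟩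
    have h13 := h8 m (χ / 2) (by linarith)
    have h14 : 0 ≤ Real.exp (m * (χ / 2)) * Real.sinh (χ / 2) :=
      mul_nonneg (Real.exp_pos _).le (Real.sinh_nonneg_iff.2 (by linarith))
    have h15 := pow_le_pow_left₀ h14 h13 2
    have e3 : ((m + 1 : ℕ) : ℝ) * χ / 2 = (m + 1) * (χ / 2) := by push_cast; ring
    have e4 : (((m + 1 : ℕ) : ℝ) - 1) * (κ * ell (rep p)) = m * (κ * ell (rep p)) := by
      push_cast; ring
    have e5 : (Real.exp (m * (χ / 2)) * Real.sinh (χ / 2)) ^ 2 =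
        Real.exp (m * χ) * Real.sinh (χ / 2) ^ 2 := by
      rw [mul_pow, ← Real.exp_nat_mul]
      congr 2
      push_cast
      ring
    rw [e3, e4]
    rw [e5] at h15
    have h16 : Real.exp (m * (κ * ell (rep p))) ≤ Real.exp (m * χ) :=
      Real.exp_le_exp.2 (mul_le_mul_of_nonneg_left h5 (Nat.cast_nonneg m))
    have h17 : 0 ≤ Real.sinh (χ / 2) ^ 2 := sq_nonneg _
    nlinarith [mul_le_mul_of_nonneg_right h16 h17]

theorem trace_of (h : GrpData ell tr κ) {lev : ℕ → ℝ}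
    (hT : ∃ C : ℝ, 0 < C ∧ ∀ (b : ℝ → ℂ) (ρ B τ : ℝ), ContDiff ℝ ∞ b →
      (∀ t, b (-t) = (starRingEnd ℂ) (b t)) → 0 ≤ ρ → (∀ t, ρ < |t| → b t = 0) → 1 ≤ τ →
      (∀ j ≤ 4, ∀ t, ‖iteratedDeriv j b t‖ ≤ B) →
      |∑' n, hh b τ (lev n) - 1 / (2 * Real.pi) * (∫ y in Ioi (0 : ℝ), hh b τ y * y) -
        ∑ᶠ c ∈ {c : ConjClasses Γ | c ≠ ConjClasses.mk 1}, gg b τ (cf ell c) *
          (cf (ellp ell) c / √(cf tr c - 2))| ≤ C * Real.exp (C * ρ) * τ ^ (-(1 / 2) : ℝ) * B) :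
    Trace (geo ell tr) lev := by
  obtain ⟨C, hC, hT⟩ := hT
  refine ⟨C, hC, ?_⟩
  intro b ρ B τ hb hsym hρ hsupp hτ hB
  have h1 := hT b ρ B τ hb hsym hρ hsupp hτ hB
  have hce : ∀ g : Γ, cf ell (ConjClasses.mk g) = ell g := fun g =>
    cf_mk fun γ => (h.conj g γ).1
  have hct : ∀ g : Γ, cf tr (ConjClasses.mk g) = tr g := fun g =>
    cf_mk fun γ => (h.conj g γ).2
  have hcp : ∀ g : Γ, g ≠ 1 → cf (ellp ell) (ConjClasses.mk g) = ellp ell g := fun g hg =>
    cf_mk fun γ => ellp_conj h hg γ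
  rw [dict h (fun c => gg b τ (cf ell c) * (cf (ellp ell) c / √(cf tr c - 2))) (t := ρ)
    (fun g => by
      by_cases hg : g = 1
      · subst hg
        rw [inv_one]
      · have hg' : g⁻¹ ≠ 1 := inv_ne_one.2 hg
        show gg b τ (cf ell (ConjClasses.mk g⁻¹)) * _ = _
        rw [hce, hct, hcp _ hg', hce, hct, hcp _ hg, (h.inv g).1, (h.inv g).2, ellp_inv h hg])
    (fun g hg => by
      show gg b τ (cf ell (ConjClasses.mk g)) * _ = 0
      rw [hce]
      have h2 : b (ell g) = 0 := hsupp _ (hg.trans_le (le_abs_self _))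
      unfold gg
      rw [h2]
      simp)] at h1
  refine le_trans (le_of_eq ?_) h1
  congr 2
  congr 1
  refine finsum_mem_congr rfl fun q hq => ?_
  have hq1 : 1 ≤ q.2 := hq
  rw [hce, hct, hcp _ (pow_ne h q.1 hq1), ellp_pow h (rep_prim q.1) hq1, h.pow]
  rfl

private theorem fin_if {α : Type} (P Q : α → Prop) [DecidablePred Q] (f : α → ℝ) :
    ∑ᶠ c ∈ {c | P c ∧ Q c}, f c = ∑ᶠ c ∈ {c | P c}, (if Q c then f c else 0) := by
  refine finsum_congr fun c => ?_
  by_cases hp : P c <;> by_cases hq : Q c <;> simp [hp, hq]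

theorem sumrule_of (h : GrpData ell tr κ)
    (hS : Tendsto (fun t : ℝ => (∑ᶠ c ∈ {c : ConjClasses Γ | c ≠ ConjClasses.mk 1 ∧
      cf ell c ≤ t}, cf (ellp ell) c / (cf tr c - 2)) / t) atTop (𝓝 1)) :
    SumRule (geo ell tr) := by
  classical
  have hce : ∀ g : Γ, cf ell (ConjClasses.mk g) = ell g := fun g =>
    cf_mk fun γ => (h.conj g γ).1
  have hct : ∀ g : Γ, cf tr (ConjClasses.mk g) = tr g := fun g =>
    cf_mk fun γ => (h.conj g γ).2
  have hcp : ∀ g : Γ, g ≠ 1 → cf (ellp ell) (ConjClasses.mk g) = ellp ell g := fun g hg =>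
    cf_mk fun γ => ellp_conj h hg γ
  have key : ∀ t : ℝ, ∑ᶠ c ∈ {c : ConjClasses Γ | c ≠ ConjClasses.mk 1 ∧ cf ell c ≤ t},
      cf (ellp ell) c / (cf tr c - 2) = 2 * ∑ᶠ q ∈ {q : (geo ell tr).P × ℕ | 1 ≤ q.2 ∧
        q.2 * (geo ell tr).len q.1 ≤ t}, (geo ell tr).len q.1 / (geo ell tr).tw q.1 q.2 := by
    intro t
    rw [fin_if (fun c : ConjClasses Γ => c ≠ ConjClasses.mk 1) (fun c => cf ell c ≤ t),
      dict h (fun c => if cf ell c ≤ t then cf (ellp ell) c / (cf tr c - 2) else 0) (t := t)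
      (fun g => by
        by_cases hg : g = 1
        · subst hg
          rw [inv_one]
        · have hg' : g⁻¹ ≠ 1 := inv_ne_one.2 hg
          show (if cf ell (ConjClasses.mk g⁻¹) ≤ t then _ else _) = _
          rw [hce, hct, hcp _ hg', hce, hct, hcp _ hg, (h.inv g).1, (h.inv g).2, ellp_inv h hg])
      (fun g hg => by
        show (if cf ell (ConjClasses.mk g) ≤ t then _ else _) = (0 : ℝ)
        rw [hce, if_neg (not_le.2 hg)]),
      fin_if (fun q : (geo ell tr).P × ℕ => 1 ≤ q.2) (fun q => q.2 * (geo ell tr).len q.1 ≤ t)]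
    congr 1
    refine finsum_mem_congr rfl fun q hq => ?_
    have hq1 : 1 ≤ q.2 := hq
    rw [hce, hct, hcp _ (pow_ne h q.1 hq1), ellp_pow h (rep_prim q.1) hq1, h.pow]
    rfl
  unfold SumRule
  have h1 := hS.const_mul (1 / 2)
  rw [mul_one] at h1
  refine h1.congr fun t => ?_
  rw [key]
  ring

theorem sep_of {Lam : ℝ → ℝ}
    (hS : ∀ (r : ℕ) (C : ℝ), ∀ᶠ T : ℝ in atTop, ∀ (s : Finset Γ) (e : Γ → ℤ), s.card ≤ r →
      (∀ g ∈ s, Prim g) →
      (∀ g ∈ s, ∀ g' ∈ s, g ≠ g' → ∀ γ : Γ, γ * g * γ⁻¹ ≠ g' ∧ γ * g * γ⁻¹ ≠ g'⁻¹) →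
      (∀ g ∈ s, (|e g| : ℝ) ≤ C * Lam T) → (∀ g ∈ s, ell g ≤ C * Lam T) →
      (∃ g ∈ s, e g ≠ 0) → T ^ (-(1 / 2) : ℝ) ≤ |∑ g ∈ s, e g * ell g|) :
    Sep (geo ell tr) Lam := by
  classical
  intro r C
  filter_upwards [hS r C] with T hT
  show ∀ (s : Finset (PG Γ)) (e : PG Γ → ℤ), s.card ≤ r → (∃ p ∈ s, e p ≠ 0) →
    (∀ p ∈ s, |(e p : ℝ)| ≤ C * Lam T ∧ ell (rep p) ≤ C * Lam T) →
    T ^ (-(1 / 2) : ℝ) ≤ |∑ p ∈ s, (e p : ℝ) * ell (rep p)|
  intro s e hs he hb
  have hinj : Function.Injective (rep (Γ := Γ)) := by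
    intro p p' hpp
    exact rep_inj (Or.inl (by rw [hpp]))
  obtain ⟨e', he'⟩ : ∃ e' : Γ → ℤ, ∀ p : PG Γ, e' (rep p) = e p := by
    refine ⟨fun g => if hg : ∃ p : PG Γ, rep p = g then e hg.choose else 0, fun p => ?_⟩
    have h1 : ∃ p' : PG Γ, rep p' = rep p := ⟨p, rfl⟩
    show (if hg : ∃ p' : PG Γ, rep p' = rep p then e hg.choose else 0) = e p
    rw [dif_pos h1, hinj h1.choose_spec]
  have h1 := hT (s.image rep) e' ((Finset.card_image_le).trans hs)
    (fun g hg => by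
      obtain ⟨p, -, rfl⟩ := Finset.mem_image.1 hg
      exact rep_prim p)
    (fun g hg g' hg' hne γ => by
      obtain ⟨p, -, rfl⟩ := Finset.mem_image.1 hg
      obtain ⟨p', -, rfl⟩ := Finset.mem_image.1 hg'
      constructor
      · intro h2
        exact hne (by rw [rep_inj (Or.inl (isConj_iff.2 ⟨γ, h2⟩))])
      · intro h2
        exact hne (by rw [rep_inj (Or.inr (isConj_iff.2 ⟨γ, h2⟩))]))
    (fun g hg => by
      obtain ⟨p, hp, rfl⟩ := Finset.mem_image.1 hg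
      rw [he' p]
      exact (hb p hp).1)
    (fun g hg => by
      obtain ⟨p, hp, rfl⟩ := Finset.mem_image.1 hg
      exact (hb p hp).2)
    (by
      obtain ⟨p, hp, hne⟩ := he
      exact ⟨rep p, Finset.mem_image_of_mem _ hp, by rw [he' p]; exact hne⟩)
  rw [Finset.sum_image fun p _ p' _ hpp => hinj hpp] at h1
  refine h1.trans (le_of_eq ?_)
  congr 1
  refine Finset.sum_congr rfl fun p _ => ?_
  rw [he' p]

end GH
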