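import Pool.Agent.LibGH18.Defs

/-! Group theory of the primitive elements. -/

open MeasureTheory Set Filter Topology
open scoped ContDiff

namespace GH

open BGM GWin

variable {Γ : Type} [Group Γ] {ell tr : Γ → ℝ} {κ : ℝ}

theorem ell_one (h : GrpData ell tr κ) : ell 1 = 0 := by
  have := h.pow 1 0
  simpa using this

theorem one_of_pow (h : GrpData ell tr κ) {g : Γ} {n : ℕ} (hn : 0 < n) (hg : g ^ n = 1) :
    g = 1 := by
  by_contra hne
  have h1 := h.pow g n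
  rw [hg, ell_one h] at h1
  have h2 := h.pos g hne
  have h3 : (0 : ℝ) < n := by exact_mod_cast hn
  have := mul_pos h3 h2
  linarith

theorem one_of_zpow (h : GrpData ell tr κ) {g : Γ} {n : ℤ} (hn : n ≠ 0) (hg : g ^ n = 1) :
    g = 1 := by
  obtain ⟨m, rfl | rfl⟩ := n.eq_nat_or_neg
  · rw [zpow_natCast] at hg
    exact one_of_pow h (by omega) hg
  · rw [zpow_neg, inv_eq_one, zpow_natCast] at hg
    exact one_of_pow h (by omega) hg

theorem zpow_inj (h : GrpData ell tr κ) {g : Γ} (hg : g ≠ 1) {a b : ℤ} (hab : g ^ a = g ^ b) :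
    a = b := by
  by_contra hne
  apply hg
  refine one_of_zpow h (n := a - b) (by omega) ?_
  rw [zpow_sub, hab, mul_inv_cancel]

theorem prim_ne {g : Γ} (hg : Prim g) : g ≠ 1 := by
  rintro rfl
  have := hg 1 0 (zpow_zero 1)
  omega

theorem prim_conj {g : Γ} (hg : Prim g) (γ : Γ) : Prim (γ * g * γ⁻¹) := by
  intro x n hx
  refine hg (γ⁻¹ * x * γ) n ?_
  have h1 : γ⁻¹ * x * γ = MulAut.conj γ⁻¹ x := by simp [MulAut.conj_apply]
  rw [h1, ← map_zpow, hx]
  simp only [MulAut.conj_apply, inv_inv]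
  group

theorem ell_zpow (h : GrpData ell tr κ) (g : Γ) (n : ℤ) : ell (g ^ n) = |(n : ℝ)| * ell g := by
  obtain ⟨m, rfl | rfl⟩ := n.eq_nat_or_neg
  · rw [zpow_natCast, h.pow]
    simp
  · rw [zpow_neg, (h.inv _).1, zpow_natCast, h.pow]
    simp

/-- The root of a power of a primitive element. -/
theorem root_prim (h : GrpData ell tr κ) {g x : Γ} (hg : Prim g) (hx : x ≠ 1) {m : ℤ}
    (hm : g ^ m = x) : ∀ γ : Γ, x * γ = γ * x ↔ ∃ j : ℤ, γ = g ^ j := by
  obtain ⟨p, n, hp, hn, hpn, hc⟩ := h.root x hx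
  have h1 : x * g = g * x := by
    rw [← hm, ← zpow_add_one, ← zpow_one_add, add_comm]
  obtain ⟨a, ha⟩ := (hc g).1 h1
  have h2 := hg p a ha.symm
  intro γ
  rw [hc]
  rcases h2 with rfl | rfl
  · rw [zpow_one] at ha
    rw [ha]
  · have h3 : p = g⁻¹ := by
      rw [ha]
      group
    rw [h3]
    constructor
    · rintro ⟨j, rfl⟩
      exact ⟨-j, by group⟩
    · rintro ⟨j, rfl⟩
      exact ⟨-j, by group⟩

/-- Primitive elements with a common power. -/
theorem common (h : GrpData ell tr κ) {g g' : Γ} (hg : Prim g) (hg' : Prim g') {a b : ℤ}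
    (hab : g ^ a = g' ^ b) (ha : g ^ a ≠ 1) : g' = g ∨ g' = g⁻¹ := by
  have h1 : (g ^ a) * g' = g' * (g ^ a) := by
    rw [hab, ← zpow_add_one, ← zpow_one_add, add_comm]
  obtain ⟨j, hj⟩ := (root_prim h hg ha rfl g').1 h1
  rcases hg' g j hj.symm with rfl | rfl
  · left
    rw [hj, zpow_one]
  · right
    rw [hj]
    group

/-- A primitive element is not conjugate to its inverse. -/
theorem no_inv (h : GrpData ell tr κ) {g : Γ} (hg : Prim g) : ¬ IsConj g g⁻¹ := by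
  rw [isConj_iff]
  rintro ⟨γ, hγ⟩
  have hne := prim_ne hg
  have h1 : ∀ j : ℤ, γ * g ^ j * γ⁻¹ = g ^ (-j) := by
    intro j
    have e1 : γ * g ^ j * γ⁻¹ = (γ * g * γ⁻¹) ^ j := by
      have := map_zpow (MulAut.conj γ) g j
      simpa [MulAut.conj_apply] using this
    rw [e1, hγ]
    group
  have h2 : g * (γ * γ) = γ * γ * g := by
    have e2 : γ * g = g⁻¹ * γ := by
      rw [← hγ]
      group
    have e3 : γ * g⁻¹ = g * γ := by
      have := h1 (-1)
      rw [neg_neg, zpow_one, zpow_neg, zpow_one] at this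
      exact mul_inv_eq_iff_eq_mul.1 this
    calc g * (γ * γ) = g * γ * γ := (mul_assoc _ _ _).symm
      _ = γ * g⁻¹ * γ := by rw [e3]
      _ = γ * (g⁻¹ * γ) := mul_assoc _ _ _
      _ = γ * (γ * g) := by rw [e2]
      _ = γ * γ * g := (mul_assoc _ _ _).symm
  obtain ⟨j, hj⟩ := (root_prim h hg hne (zpow_one g) (γ * γ)).1 h2
  have h3 := h1 j
  rw [← hj] at h3
  have h4 : γ * (γ * γ) * γ⁻¹ = γ * γ := by group
  rw [h4, hj] at h3
  have h5 := zpow_inj h hne h3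
  have h6 : j = 0 := by omega
  rw [h6, zpow_zero] at hj
  have h7 : γ = 1 := one_of_pow h (n := 2) (by norm_num) (by rw [sq]; exact hj)
  rw [h7] at hγ
  have h8 : g ^ (1 : ℤ) = g ^ (-1 : ℤ) := by
    rw [zpow_one, zpow_neg, zpow_one, ← hγ]
    group
  have := zpow_inj h hne h8
  omega

theorem rep_inj {p p' : PG Γ} (H : IsConj (rep p) (rep p') ∨ IsConj (rep p) (rep p')⁻¹) :
    p = p' := by
  have h1 : (Quotient.mk _ (Quotient.out p) : PG Γ) = Quotient.mk _ (Quotient.out p') :=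
    Quotient.sound (s := ⟨PRel (Γ := Γ), PRel.equiv⟩) H
  exact (Quotient.out_eq p).symm.trans (h1.trans (Quotient.out_eq p'))

theorem main_inj (h : GrpData ell tr κ) {p p' : PG Γ} {a b : ℤ} (ha : a ≠ 0)
    (H : IsConj (rep p ^ a) (rep p' ^ b)) : p = p' ∧ a = b := by
  obtain ⟨γ, hγ⟩ := isConj_iff.1 H
  have e1 : γ * rep p ^ a * γ⁻¹ = (γ * rep p * γ⁻¹) ^ a := by
    have := map_zpow (MulAut.conj γ) (rep p) a
    simpa [MulAut.conj_apply] using this
  rw [e1] at hγ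
  have hp := prim_conj (rep_prim p) γ
  have hne := prim_ne hp
  have hne' : (γ * rep p * γ⁻¹) ^ a ≠ 1 := fun h1 => hne (one_of_zpow h ha h1)
  have h2 := common h hp (rep_prim p') hγ hne'
  have h3 : p = p' := by
    rcases h2 with h2 | h2
    · exact rep_inj (Or.inl (isConj_iff.2 ⟨γ, h2.symm⟩))
    · exact rep_inj (Or.inr (isConj_iff.2 ⟨γ, by rw [h2, inv_inv]⟩))
  subst h3
  refine ⟨rfl, ?_⟩
  rcases h2 with h2 | h2
  · rw [← h2] at hγ
    exact zpow_inj h (prim_ne (rep_prim p)) hγ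
  · exfalso
    refine no_inv h (rep_prim p) (isConj_iff.2 ⟨γ, ?_⟩)
    have h4 := congrArg (fun x => x⁻¹) h2
    simp only [inv_inv] at h4
    exact h4.symm

theorem isConj_pow {g g' : Γ} (H : IsConj g g') (n : ℕ) : IsConj (g ^ n) (g' ^ n) := by
  obtain ⟨γ, rfl⟩ := isConj_iff.1 H
  refine isConj_iff.2 ⟨γ, ?_⟩
  have := map_pow (MulAut.conj γ) g n
  simpa [MulAut.conj_apply] using this

theorem main_surj (h : GrpData ell tr κ) {g : Γ} (hg : g ≠ 1) : ∃ (p : PG Γ) (n : ℕ), 1 ≤ n ∧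
    (IsConj (rep p ^ n) g ∨ IsConj (rep p ^ n)⁻¹ g) := by
  obtain ⟨p0, n, hp, hn, hpn, -⟩ := h.root g hg
  refine ⟨Quotient.mk _ ⟨p0, hp⟩, n, hn, ?_⟩
  have h1 : PRel (Quotient.out (Quotient.mk ⟨PRel (Γ := Γ), PRel.equiv⟩ ⟨p0, hp⟩)) ⟨p0, hp⟩ :=
    Quotient.mk_out (s := ⟨PRel (Γ := Γ), PRel.equiv⟩) ⟨p0, hp⟩
  rcases h1 with h1 | h1
  · left
    rw [← hpn]
    exact isConj_pow h1 n
  · right
    rw [← hpn]
    have h2 := isConj_inv (isConj_pow h1 n)
    rwa [inv_pow, inv_inv] at h2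

end GH
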